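import Pool.Agent.Helper15.FC.St1

set_option autoImplicit false

/-!
# FC LIN: linear algebra over `L[z]`

A finite family of power series over a field `L` has a maximal subfamily which is linearly
independent over `L[z]`; a common denominator expresses every member of the family by it, with
control of the degrees.
-/

namespace Pool.Agent.Helper70.FC

open Pool.Agent.Helper15.FC Polynomial

/-- linear independence over `L[z]` of the subfamily `I` -/
private def Ind {L : Type} [Field L] {ι : Type} (g : ι → PowerSeries L) (I : Finset ι) : Prop :=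
  ∀ G : ι → L[X], ∑ e ∈ I, (G e : PowerSeries L) * g e = 0 → ∀ e ∈ I, G e = 0

private lemma exists_max {L : Type} [Field L] {ι : Type} [Fintype ι] (g : ι → PowerSeries L) :
    ∃ I : Finset ι, Ind g I ∧ ∀ J : Finset ι, Ind g J → I ⊆ J → J ⊆ I := by
  classical
  have hfin : ({I : Finset ι | Ind g I}).Finite := Set.toFinite _
  have hne : ({I : Finset ι | Ind g I}).Nonempty :=
    ⟨∅, fun G _ e he => absurd he (Finset.notMem_empty e)⟩
  obtain ⟨I, hI⟩ := hfin.exists_maximal hne
  exact ⟨I, hI.1, fun J hJ hIJ => hI.2 hJ hIJ⟩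

private lemma exists_den {L : Type} [Field L] {ι : Type} (g : ι → PowerSeries L)
    (I : Finset ι) (hI : Ind g I) (hmax : ∀ J : Finset ι, Ind g J → I ⊆ J → J ⊆ I) (e' : ι) :
    ∃ (D : L[X]) (U : ι → L[X]), D ≠ 0 ∧
      (D : PowerSeries L) * g e' = ∑ e ∈ I, (U e : PowerSeries L) * g e := by
  classical
  by_cases he : e' ∈ I
  · refine ⟨1, fun e => if e = e' then 1 else 0, one_ne_zero, ?_⟩
    rw [Finset.sum_eq_single e']
    · simp
    · intro b _ hb
      simp [hb]
    · intro h
      exact absurd he h
  · have hnot : ¬ Ind g (insert e' I) := by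
      intro h
      have := hmax _ h (Finset.subset_insert e' I)
      exact he (this (Finset.mem_insert_self e' I))
    unfold Ind at hnot
    push Not at hnot
    obtain ⟨G, hG, e, heI, hGe⟩ := hnot
    rw [Finset.sum_insert he] at hG
    have hGe' : G e' ≠ 0 := by
      intro h0
      rw [h0, Polynomial.coe_zero, zero_mul, zero_add] at hG
      rcases Finset.mem_insert.1 heI with h | h
      · rw [h] at hGe
        exact hGe h0
      · exact hGe (hI G hG e h)
    refine ⟨G e', fun e => - G e, hGe', ?_⟩
    rw [eq_neg_of_add_eq_zero_left hG, ← Finset.sum_neg_distrib]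
    refine Finset.sum_congr rfl fun x _ => ?_
    rw [Polynomial.coe_neg, neg_mul]

/-- **LIN** -/
theorem hLIN : StLIN := by
  intro L _ ι _ g w
  classical
  obtain ⟨I, hI, hmax⟩ := exists_max g
  choose D U hD hU using fun e' => exists_den g I hI hmax e'
  -- the common denominator
  set DD : L[X] := ∏ e', D e' with hDD
  set V : ι → ι → L[X] := fun e' e => (∏ x ∈ Finset.univ.erase e', D x) * U e' e with hV
  have hDV : ∀ e', (DD : PowerSeries L) * g e' = ∑ e ∈ I, (V e' e : PowerSeries L) * g e := by
    intro e'
    have h1 : DD = (∏ x ∈ Finset.univ.erase e', D x) * D e' := by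
      rw [hDD, Finset.prod_erase_mul _ _ (Finset.mem_univ e')]
    rw [h1, Polynomial.coe_mul, mul_assoc, hU e', Finset.mul_sum]
    refine Finset.sum_congr rfl fun x _ => ?_
    rw [hV]
    simp only
    rw [Polynomial.coe_mul, mul_assoc]
  set CC : ℕ := ∑ e', ∑ e, (V e' e).natDegree with hCC
  have hVC : ∀ e' e, (V e' e).natDegree ≤ CC := by
    intro e' e
    have h1 : (V e' e).natDegree ≤ ∑ e, (V e' e).natDegree :=
      Finset.single_le_sum (f := fun e => (V e' e).natDegree) (fun _ _ => Nat.zero_le _)
        (Finset.mem_univ e)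
    have h2 : ∑ e, (V e' e).natDegree ≤ CC :=
      Finset.single_le_sum (f := fun e' => ∑ e, (V e' e).natDegree) (fun _ _ => Nat.zero_le _)
        (Finset.mem_univ e')
    exact h1.trans h2
  clear_value V
  refine ⟨I, DD, CC, ?_, hI, ?_⟩
  · rw [hDD]
    exact Finset.prod_ne_zero_iff.2 fun e' _ => hD e'
  · intro j u hu
    refine Submodule.span_induction (p := fun u _ => ∃ G : ι → L[X],
      (∀ e, (G e).natDegree ≤ j + CC) ∧
        (DD : PowerSeries L) * u = ∑ e ∈ I, (G e : PowerSeries L) * g e) ?_ ?_ ?_ ?_ hu
    · rintro v ⟨i, e', hle, rfl⟩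
      refine ⟨fun e => X ^ i * V e' e, ?_, ?_⟩
      · intro e
        refine (Polynomial.natDegree_mul_le).trans ?_
        have h1 : ((X : L[X]) ^ i).natDegree ≤ i := Polynomial.natDegree_X_pow_le i
        have h2 := hVC e' e
        omega
      · rw [mul_left_comm, hDV e', Finset.mul_sum]
        refine Finset.sum_congr rfl fun x _ => ?_
        change _ = ((X ^ i * V e' x : L[X]) : PowerSeries L) * g x
        rw [Polynomial.coe_mul, Polynomial.coe_pow, Polynomial.coe_X, mul_assoc]
    · refine ⟨fun _ => 0, fun e => by simp, ?_⟩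
      simp
    · rintro u v _ _ ⟨G, hG, hGu⟩ ⟨H, hH, hHv⟩
      refine ⟨fun e => G e + H e, ?_, ?_⟩
      · intro e
        exact (Polynomial.natDegree_add_le _ _).trans (max_le (hG e) (hH e))
      · rw [mul_add, hGu, hHv, ← Finset.sum_add_distrib]
        refine Finset.sum_congr rfl fun x _ => ?_
        rw [Polynomial.coe_add, add_mul]
    · rintro c u _ ⟨G, hG, hGu⟩
      refine ⟨fun e => Polynomial.C c * G e, ?_, ?_⟩
      · intro e
        exact (Polynomial.natDegree_C_mul_le _ _).trans (hG e)
      · rw [PowerSeries.smul_eq_C_mul, mul_left_comm, hGu, Finset.mul_sum]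
        refine Finset.sum_congr rfl fun x _ => ?_
        rw [Polynomial.coe_mul, Polynomial.coe_C, mul_assoc]

end Pool.Agent.Helper70.FC
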