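import Pool.Agent.Helper15.FC.St2

set_option autoImplicit false

/-!
# FC PRB: bound of `|L(u)|` by a prime sum of length `2K`
-/

namespace Pool.Agent.Helper70.FC

open Pool.Agent.Helper15.FC Polynomial

private lemma sum_inv_le (n : ℕ) :
    ∑ j ∈ Finset.Icc 1 n, (1 : ℝ) / j ≤ 1 + Real.log n := by
  have h := harmonic_le_one_add_log n
  rw [harmonic_eq_sum_Icc] at h
  push_cast at h
  refine le_trans (le_of_eq ?_) h
  refine Finset.sum_congr rfl fun j _ => ?_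
  rw [one_div]

/-- removing the prime `X` from the primes of degree `j` -/
private lemma ir_split {F : Type} [Field F] [Fintype F] (Χ : F[X] → ℂ) (hΧ : CM Χ) (u : ℂ)
    (hu : ‖u‖ ≤ 1) (j : ℕ) :
    ‖∑ P ∈ Ir F j, Χ P * u ^ j - ∑ P ∈ IrX F j, Χ P * u ^ j‖ ≤ if j = 1 then 1 else 0 := by
  classical
  have hsplit : ∑ P ∈ Ir F j, Χ P * u ^ j =
      ∑ P ∈ IrX F j, Χ P * u ^ j + ∑ P ∈ (Ir F j).filter (fun P => ¬ P ≠ X), Χ P * u ^ j := by
    unfold IrX
    rw [Finset.sum_filter_add_sum_filter_not]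
  rw [hsplit, add_sub_cancel_left]
  by_cases hj : j = 1
  · rw [if_pos hj]
    have hsub : (Ir F j).filter (fun P => ¬ P ≠ X) ⊆ {X} := by
      intro P hP
      rw [Finset.mem_filter, not_not] at hP
      exact Finset.mem_singleton.2 hP.2
    refine (norm_sum_le _ _).trans ?_
    refine (Finset.sum_le_sum_of_subset_of_nonneg hsub fun _ _ _ => norm_nonneg _).trans ?_
    rw [Finset.sum_singleton, norm_mul, norm_pow]
    have h1 : ‖Χ X‖ ≤ 1 := hΧ.2.2 X Polynomial.monic_X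
    have h2 : ‖u‖ ^ j ≤ 1 := pow_le_one₀ (norm_nonneg u) hu
    exact mul_le_one₀ h1 (pow_nonneg (norm_nonneg u) j) h2
  · rw [if_neg hj]
    have hempty : (Ir F j).filter (fun P => ¬ P ≠ X) = ∅ := by
      rw [Finset.eq_empty_iff_forall_notMem]
      intro P hP
      rw [Finset.mem_filter, not_not] at hP
      obtain ⟨hP1, hP2⟩ := hP
      unfold Ir at hP1
      rw [Finset.mem_filter, mem_Mn] at hP1
      have := hP1.1.2
      rw [hP2, Polynomial.natDegree_X] at this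
      exact hj this.symm
    rw [hempty, Finset.sum_empty, norm_zero]

/-- **PRB** -/
theorem hPRB (hMAJ : StMAJ) (hLOG : StLOG) (hPSB : StPSB) (hCMH : StCMH) (hZS : StZS)
    (hRH : StRH) : StPRB := by
  obtain ⟨C, hC1, hC⟩ := hMAJ
  refine ⟨C, hC1, ?_⟩
  intro K hK
  obtain ⟨bb, hbb⟩ := hC K hK
  have hC0 : 0 ≤ C := hbb.1
  refine ⟨bb, hbb.2.1, ?_⟩
  intro F _ _ r N χ ξ u hr hξ hu
  have hcm : CM (Hk r N χ ξ) := hCMH F r N χ ξ hr
  have hmain := hLOG C K bb hK hbb F (Hk r N χ ξ) (r.natDegree + N) hcm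
    (fun d hd => hZS F r N χ ξ hr (Or.inl hξ) d hd)
    (fun z hz => hRH F r N χ ξ hr (Or.inl hξ) z hz) u hu
  refine hmain.trans (Real.exp_le_exp.2 ?_)
  rw [add_assoc]
  refine add_le_add le_rfl ?_
  generalize Hk r N χ ξ = Χ at hcm ⊢
  -- the size of `u`
  have hq1 : (1 : ℝ) ≤ qr F := by
    have : 1 ≤ Fintype.card F := Fintype.card_pos
    exact_mod_cast this
  have hu1 : ‖u‖ ≤ 1 := by
    by_contra hcon
    push Not at hcon
    have h1 : 1 < ‖u‖ ^ 2 := by nlinarith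
    have h2 : ‖u‖ ^ 2 ≤ qr F * ‖u‖ ^ 2 := by nlinarith [sq_nonneg ‖u‖]
    linarith
  -- the terms
  have hterm : ∀ j ∈ Finset.Icc 1 (2 * K),
      ((bb j / j : ℝ) : ℂ) * Psi Χ j * u ^ j =
        (bb j : ℂ) * (Psi Χ j * u ^ j / j - ∑ P ∈ Ir F j, Χ P * u ^ j) +
        (bb j : ℂ) * (∑ P ∈ Ir F j, Χ P * u ^ j - ∑ P ∈ IrX F j, Χ P * u ^ j) +
        ∑ P ∈ IrX F j, (bb j : ℂ) * Χ P * u ^ j := by
    intro j hj
    have hj1 : 1 ≤ j := (Finset.mem_Icc.1 hj).1
    have hj0 : (j : ℂ) ≠ 0 := by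
      have : j ≠ 0 := by omega
      exact_mod_cast this
    have h3 : ∑ P ∈ IrX F j, (bb j : ℂ) * Χ P * u ^ j =
        (bb j : ℂ) * ∑ P ∈ IrX F j, Χ P * u ^ j := by
      rw [Finset.mul_sum]
      refine Finset.sum_congr rfl fun P _ => ?_
      ring
    rw [h3]
    push_cast
    field_simp
    ring
  rw [Finset.sum_congr rfl hterm, Finset.sum_add_distrib, Finset.sum_add_distrib]
  have hIoc : Finset.Icc 1 (2 * K) = Finset.Ioc 0 (2 * K) := by
    ext j
    simp only [Finset.mem_Icc, Finset.mem_Ioc]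
    omega
  have hSP : ∑ j ∈ Finset.Icc 1 (2 * K), ∑ P ∈ IrX F j, (bb j : ℂ) * Χ P * u ^ j =
      SP bb 0 (2 * K) Χ u := by
    unfold SP
    rw [hIoc]
  rw [hSP, Complex.add_re, Complex.add_re]
  have hA : (∑ j ∈ Finset.Icc 1 (2 * K),
      (bb j : ℂ) * (Psi Χ j * u ^ j / j - ∑ P ∈ Ir F j, Χ P * u ^ j)).re ≤
      2 * C * (1 + Real.log (2 * K)) := by
    refine (Complex.re_le_norm _).trans ((norm_sum_le _ _).trans ?_)
    have h1 : ∀ j ∈ Finset.Icc 1 (2 * K),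
        ‖(bb j : ℂ) * (Psi Χ j * u ^ j / j - ∑ P ∈ Ir F j, Χ P * u ^ j)‖ ≤
          2 * C * ((1 : ℝ) / j) := by
      intro j hj
      rw [norm_mul, Complex.norm_real, Real.norm_eq_abs]
      have h2 := hPSB F Χ hcm j u (Finset.mem_Icc.1 hj).1 hu
      have h3 := hbb.2.1 j
      calc |bb j| * ‖Psi Χ j * u ^ j / j - ∑ P ∈ Ir F j, Χ P * u ^ j‖
          ≤ C * (2 / j) := mul_le_mul h3 h2 (norm_nonneg _) hC0
        _ = 2 * C * ((1 : ℝ) / j) := by ring
    refine (Finset.sum_le_sum h1).trans ?_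
    rw [← Finset.mul_sum]
    refine mul_le_mul_of_nonneg_left ?_ (by linarith)
    have := sum_inv_le (2 * K)
    push_cast at this
    exact this
  have hB : (∑ j ∈ Finset.Icc 1 (2 * K),
      (bb j : ℂ) * (∑ P ∈ Ir F j, Χ P * u ^ j - ∑ P ∈ IrX F j, Χ P * u ^ j)).re ≤ C := by
    refine (Complex.re_le_norm _).trans ((norm_sum_le _ _).trans ?_)
    have h1 : ∀ j ∈ Finset.Icc 1 (2 * K),
        ‖(bb j : ℂ) * (∑ P ∈ Ir F j, Χ P * u ^ j - ∑ P ∈ IrX F j, Χ P * u ^ j)‖ ≤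
          if j = 1 then C else 0 := by
      intro j _
      rw [norm_mul, Complex.norm_real, Real.norm_eq_abs]
      have h2 := ir_split Χ hcm u hu1 j
      have h3 := hbb.2.1 j
      refine (mul_le_mul h3 h2 (norm_nonneg _) hC0).trans (le_of_eq ?_)
      split_ifs
      · rw [mul_one]
      · rw [mul_zero]
    refine (Finset.sum_le_sum h1).trans ?_
    rw [Finset.sum_ite_eq']
    split_ifs
    · exact le_rfl
    · exact hC0
  have hD : (SP bb 0 (2 * K) Χ u).re ≤ ‖SP bb 0 (2 * K) Χ u‖ := Complex.re_le_norm _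
  have hfin : 2 * C * (1 + Real.log (2 * K)) + C ≤ 2 * C * (2 + Real.log (2 * K)) := by
    nlinarith
  linarith

end Pool.Agent.Helper70.FC
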