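import Pool.Agent.Helper15.FC.St3

set_option autoImplicit false

/-!
# Project FC, module TLB: convergence of the singular series
-/

open Polynomial

namespace Pool.Agent.Helper70.FC

open Pool.Agent.Helper15.FC

private theorem tlb_one_lt_q (F : Type) [Field F] [Fintype F] : (1 : ℝ) < qr F := by
  have h : 1 < Fintype.card F := Fintype.one_lt_card
  exact_mod_cast h

/-- a power of `1 + i` is bounded by an exponential function -/
private theorem tlb_poly_exp (q : ℝ) (hq : 1 < q) (m : ℕ) (ε : ℝ) (hε : 0 < ε) :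
    ∃ C : ℝ, 0 < C ∧ ∀ i : ℕ, (1 + (i : ℝ)) ^ m ≤ C * q ^ (ε * i) := by
  have hq0 : 0 < q := lt_trans one_pos hq
  have hlog : 0 < Real.log q := Real.log_pos hq
  have hc : 0 < ε * Real.log q := mul_pos hε hlog
  refine ⟨(m.factorial : ℝ) / (ε * Real.log q) ^ m * Real.exp (ε * Real.log q), by positivity, ?_⟩
  intro i
  have hx : 0 ≤ ε * Real.log q * (1 + (i : ℝ)) := by positivity
  have h1 := Real.pow_div_factorial_le_exp _ hx m
  have h2 : Real.exp (ε * Real.log q * (1 + (i : ℝ))) =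
      Real.exp (ε * Real.log q) * q ^ (ε * i) := by
    rw [Real.rpow_def_of_pos hq0, ← Real.exp_add]
    congr 1
    ring
  rw [h2, mul_pow] at h1
  have hf : (0 : ℝ) < (m.factorial : ℝ) := by exact_mod_cast m.factorial_pos
  have hcm : 0 < (ε * Real.log q) ^ m := pow_pos hc m
  rw [div_le_iff₀ hf] at h1
  have h3 : (1 + (i : ℝ)) ^ m ≤
      (Real.exp (ε * Real.log q) * q ^ (ε * i) * (m.factorial : ℝ)) / (ε * Real.log q) ^ m := by
    rw [le_div_iff₀ hcm]
    linarith [h1, mul_comm ((ε * Real.log q) ^ m) ((1 + (i : ℝ)) ^ m)]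
  refine h3.trans (le_of_eq ?_)
  field_simp

private theorem tlb_card_dvd (F : Type) [Field F] [Fintype F] (d : F[X]) (hd : d.Monic) (i : ℕ) :
    ∑ r ∈ Mn F i, (open scoped Classical in if d ∣ r then qr F ^ d.natDegree else 0) ≤
      qr F ^ i := by
  classical
  have hq := tlb_one_lt_q F
  have hq0 : 0 < qr F := lt_trans one_pos hq
  have hsum : ∑ r ∈ Mn F i, (if d ∣ r then qr F ^ d.natDegree else 0) =
      (((Mn F i).filter (fun r => d ∣ r)).card : ℝ) * qr F ^ d.natDegree := by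
    rw [← Finset.sum_filter, Finset.sum_const, nsmul_eq_mul]
  rw [show (∑ r ∈ Mn F i, (open scoped Classical in if d ∣ r then qr F ^ d.natDegree else 0)) =
    ∑ r ∈ Mn F i, (if d ∣ r then qr F ^ d.natDegree else 0) from
      Finset.sum_congr rfl fun r _ => by split_ifs <;> rfl, hsum]
  by_cases hdi : d.natDegree ≤ i
  · have hsub : (Mn F i).filter (fun r => d ∣ r) ⊆ (Mn F (i - d.natDegree)).image (fun s => d * s) := by
      intro r hr
      rw [Finset.mem_filter, mem_Mn] at hr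
      obtain ⟨⟨hr1, hr2⟩, s, hs⟩ := hr
      have hs1 : s.Monic := by
        rw [hs] at hr1
        exact hd.of_mul_monic_left hr1
      have hs2 : d.natDegree + s.natDegree = i := by
        rw [← hr2, hs, hd.natDegree_mul hs1]
      exact Finset.mem_image.2 ⟨s, mem_Mn.2 ⟨hs1, by omega⟩, hs.symm⟩
    have hcard : ((Mn F i).filter (fun r => d ∣ r)).card ≤ Fintype.card F ^ (i - d.natDegree) := by
      rw [← card_Mn]
      exact (Finset.card_le_card hsub).trans Finset.card_image_le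
    have hcard' : (((Mn F i).filter (fun r => d ∣ r)).card : ℝ) ≤ qr F ^ (i - d.natDegree) := by
      exact_mod_cast hcard
    calc (((Mn F i).filter (fun r => d ∣ r)).card : ℝ) * qr F ^ d.natDegree
        ≤ qr F ^ (i - d.natDegree) * qr F ^ d.natDegree :=
          mul_le_mul_of_nonneg_right hcard' (pow_nonneg hq0.le _)
      _ = qr F ^ i := by rw [← pow_add]; congr 1; omega
  · have hempty : (Mn F i).filter (fun r => d ∣ r) = ∅ := by
      rw [Finset.filter_eq_empty_iff]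
      intro r hr hdr
      rw [mem_Mn] at hr
      have := Polynomial.natDegree_le_of_dvd hdr hr.1.ne_zero
      omega
    rw [hempty]
    simp only [Finset.card_empty, Nat.cast_zero, zero_mul]
    positivity

private theorem tlb_abs_mob (F : Type) [Field F] (f : F[X]) : |(mob f : ℝ)| ≤ 1 := by
  unfold mob
  split_ifs
  · push_cast
    rw [abs_pow]
    simp
  · simp

private theorem tlb_cram_le (F : Type) [Field F] [Fintype F] (r h : F[X]) (hr : r ≠ 0)
    (hh : h ≠ 0) : |(cram r h : ℝ)| ≤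
      ∑ d ∈ Dv h, (open scoped Classical in if d ∣ r then qr F ^ d.natDegree else 0) := by
  classical
  have hq := tlb_one_lt_q F
  have hq0 : 0 < qr F := lt_trans one_pos hq
  have hset : (Dv h).filter (fun d => d ∣ r) = (Dv r).filter (fun d => d ∣ h) := by
    ext d
    rw [Finset.mem_filter, Finset.mem_filter, mem_Dv hr, mem_Dv hh]
    tauto
  have h1 : (cram r h : ℝ) =
      ∑ d ∈ (Dv r).filter (fun d => d ∣ h), (mob (r / d) : ℝ) * qr F ^ d.natDegree := by
    unfold cram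
    push_cast
    refine Finset.sum_congr ?_ fun d _ => rfl
    congr
  rw [h1]
  refine (Finset.abs_sum_le_sum_abs _ _).trans ?_
  have h2 : ∑ d ∈ (Dv r).filter (fun d => d ∣ h), |(mob (r / d) : ℝ) * qr F ^ d.natDegree| ≤
      ∑ d ∈ (Dv r).filter (fun d => d ∣ h), qr F ^ d.natDegree := by
    refine Finset.sum_le_sum fun d _ => ?_
    rw [abs_mul, abs_of_nonneg (pow_nonneg hq0.le d.natDegree)]
    exact mul_le_of_le_one_left (pow_nonneg hq0.le _) (tlb_abs_mob F _)
  refine h2.trans (le_of_eq ?_)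
  rw [← hset, Finset.sum_filter]

private theorem tlb_sum_cram (F : Type) [Field F] [Fintype F] (h : F[X]) (hh : h ≠ 0) (i : ℕ) :
    ∑ r ∈ Mn F i, |(cram r h : ℝ)| ≤ tau h * qr F ^ i := by
  calc ∑ r ∈ Mn F i, |(cram r h : ℝ)|
      ≤ ∑ r ∈ Mn F i, ∑ d ∈ Dv h,
          (open scoped Classical in if d ∣ r then qr F ^ d.natDegree else 0) :=
        Finset.sum_le_sum fun r hr => tlb_cram_le F r h (mem_Mn.1 hr).1.ne_zero hh
    _ = ∑ d ∈ Dv h, ∑ r ∈ Mn F i,
          (open scoped Classical in if d ∣ r then qr F ^ d.natDegree else 0) := Finset.sum_comm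
    _ ≤ ∑ d ∈ Dv h, qr F ^ i :=
        Finset.sum_le_sum fun d hd => tlb_card_dvd F d ((mem_Dv hh).1 hd).1 i
    _ = tau h * qr F ^ i := by
        rw [Finset.sum_const, nsmul_eq_mul]
        rfl

/-- **TLB** (convergence of the singular series) -/
theorem hTLB (hTAU : StTAU) : StTLB := by
  intro F _ _ k l P P' hk hl hP hP'
  have hq := tlb_one_lt_q F
  have hq0 : 0 < qr F := lt_trans one_pos hq
  set s : ℕ := (2 * k + 2) + (2 * l + 2) with hs
  have hs0 : (0 : ℝ) < s := by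
    have : 0 < s := by omega
    exact_mod_cast this
  obtain ⟨C0, hC0, hC0b⟩ := hTAU F (1 / (8 * (s : ℝ))) (by positivity)
  obtain ⟨C1, hC1, hC1b⟩ := tlb_poly_exp (qr F) hq (k + l) (1 / 8) (by norm_num)
  have hC0p : (0 : ℝ) < C0 := by linarith
  refine ⟨(2 + k : ℝ) ^ k * (2 + l : ℝ) ^ l * C1 * C0 ^ s, by positivity, ?_⟩
  intro h a b i hh
  set B : ℝ := (2 + k : ℝ) ^ k * (2 + l : ℝ) ^ l * C1 * C0 ^ s with hB
  have hBp : 0 < B := by positivity
  have hterm : ∀ r ∈ Mn F i, |(P r).coeff a| * |(P' r).coeff b| * |(cram r h : ℝ)| ≤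
      B * qr F ^ (-(7 / 4 : ℝ) * i) * |(cram r h : ℝ)| := by
    intro r hr
    rw [mem_Mn] at hr
    obtain ⟨hr1, hr2⟩ := hr
    refine mul_le_mul_of_nonneg_right ?_ (abs_nonneg _)
    have e1 := (hP r hr1).2.2 a
    have e2 := (hP' r hr1).2.2 b
    rw [hr2] at e1 e2
    have ht0 : 0 ≤ tau r := Nat.cast_nonneg _
    have e3 : tau r ≤ C0 * qr F ^ (1 / (8 * (s : ℝ)) * i) := by
      have := hC0b r hr1
      rwa [hr2] at this
    have e4 : tau r ^ s ≤ C0 ^ s * qr F ^ ((1 / 8 : ℝ) * i) := by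
      refine (pow_le_pow_left₀ ht0 e3 s).trans (le_of_eq ?_)
      rw [mul_pow, ← Real.rpow_natCast (qr F ^ (1 / (8 * (s : ℝ)) * (i : ℝ))) s,
        ← Real.rpow_mul hq0.le]
      congr 2
      field_simp
    have e5 : (2 + k * i : ℝ) ^ k * (2 + l * i : ℝ) ^ l ≤
        (2 + k : ℝ) ^ k * (2 + l : ℝ) ^ l * (C1 * qr F ^ ((1 / 8 : ℝ) * i)) := by
      have f1 : (2 + k * i : ℝ) ^ k ≤ ((2 + k : ℝ) * (1 + i)) ^ k := by
        refine pow_le_pow_left₀ (by positivity) ?_ k
        have : (0 : ℝ) ≤ i := Nat.cast_nonneg i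
        have : (0 : ℝ) ≤ k := Nat.cast_nonneg k
        nlinarith
      have f2 : (2 + l * i : ℝ) ^ l ≤ ((2 + l : ℝ) * (1 + i)) ^ l := by
        refine pow_le_pow_left₀ (by positivity) ?_ l
        have : (0 : ℝ) ≤ i := Nat.cast_nonneg i
        have : (0 : ℝ) ≤ l := Nat.cast_nonneg l
        nlinarith
      calc (2 + k * i : ℝ) ^ k * (2 + l * i : ℝ) ^ l
          ≤ ((2 + k : ℝ) * (1 + i)) ^ k * ((2 + l : ℝ) * (1 + i)) ^ l :=
            mul_le_mul f1 f2 (by positivity) (by positivity)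
        _ = (2 + k : ℝ) ^ k * (2 + l : ℝ) ^ l * (1 + (i : ℝ)) ^ (k + l) := by
            rw [mul_pow, mul_pow, pow_add]
            ring
        _ ≤ _ := mul_le_mul_of_nonneg_left (hC1b i) (by positivity)
    calc |(P r).coeff a| * |(P' r).coeff b|
        ≤ ((2 + k * i : ℝ) ^ k * tau r ^ (2 * k + 2) * (qr F ^ i)⁻¹) *
          ((2 + l * i : ℝ) ^ l * tau r ^ (2 * l + 2) * (qr F ^ i)⁻¹) :=
          mul_le_mul e1 e2 (abs_nonneg _) (by positivity)
      _ = ((2 + k * i : ℝ) ^ k * (2 + l * i : ℝ) ^ l) * tau r ^ s *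
          ((qr F ^ i)⁻¹ * (qr F ^ i)⁻¹) := by
          rw [hs, pow_add]
          ring
      _ ≤ ((2 + k : ℝ) ^ k * (2 + l : ℝ) ^ l * (C1 * qr F ^ ((1 / 8 : ℝ) * i))) *
          (C0 ^ s * qr F ^ ((1 / 8 : ℝ) * i)) * ((qr F ^ i)⁻¹ * (qr F ^ i)⁻¹) := by
          refine mul_le_mul_of_nonneg_right ?_ (by positivity)
          exact mul_le_mul e5 e4 (by positivity) (by positivity)
      _ = B * (qr F ^ ((1 / 8 : ℝ) * i) * qr F ^ ((1 / 8 : ℝ) * i) *
          ((qr F ^ i)⁻¹ * (qr F ^ i)⁻¹)) := by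
          rw [hB]
          ring
      _ = B * qr F ^ (-(7 / 4 : ℝ) * i) := by
          congr 1
          rw [← Real.rpow_natCast (qr F) i, ← Real.rpow_neg hq0.le, ← Real.rpow_add hq0,
            ← Real.rpow_add hq0, ← Real.rpow_add hq0]
          congr 1
          ring
  calc ∑ r ∈ Mn F i, |(P r).coeff a| * |(P' r).coeff b| * |(cram r h : ℝ)|
      ≤ ∑ r ∈ Mn F i, B * qr F ^ (-(7 / 4 : ℝ) * i) * |(cram r h : ℝ)| :=
        Finset.sum_le_sum hterm
    _ = B * qr F ^ (-(7 / 4 : ℝ) * i) * ∑ r ∈ Mn F i, |(cram r h : ℝ)| := by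
        rw [Finset.mul_sum]
    _ ≤ B * qr F ^ (-(7 / 4 : ℝ) * i) * (tau h * qr F ^ i) :=
        mul_le_mul_of_nonneg_left (tlb_sum_cram F h hh i)
          (mul_nonneg hBp.le (Real.rpow_nonneg hq0.le _))
    _ = B * tau h * (qr F ^ (-(7 / 4 : ℝ) * i) * qr F ^ (i : ℝ)) := by
        rw [Real.rpow_natCast]
        ring
    _ = B * tau h * qr F ^ (-(3 / 4 : ℝ) * i) := by
        rw [← Real.rpow_add hq0]
        congr 2
        ring

end Pool.Agent.Helper70.FC
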